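import Pool.Agent.V5helper77.TL.Ring
import Pool.Agent.N686.DI.Main
set_option autoImplicit false

/-!
# The double cover `(x, y) ↦ (x + y, x y)` by the curve `λ P(x) P(y) = 1`
-/

namespace Pool.Agent.V5helper77.TL

open Pool.Agent.TH826.MK (KQ symb Torus Good pairing integrand grow)

open Pool.Agent.TH826.MH (CRing fpol ux fx)

section torus

variable {R R' : Type*} [CommRing R] [CommRing R'] {d : ℕ}

/-- the image of a torus under the map of complex points given by a homomorphism -/
noncomputable def pull (φ : R →+* R') (Γ : Torus R' d) : Torus R d where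
  e θ := (Γ.e θ).comp φ
  smooth h := Γ.smooth (φ h)
  periodic θ i := by rw [Γ.periodic]

theorem pull_symb (φ : R →+* R') (Γ : Torus R' d) (a : Fin (d + 1) → Rˣ) :
    (pull φ Γ).reg (symb a) = Γ.reg (symb fun i => Units.map (φ : R →* R') (a i)) := by
  rw [Torus.reg_symb, Torus.reg_symb]
  rfl

theorem pairing_swap (f g : (Fin 1 → ℝ) → ℂ) : pairing ![f, g] = -pairing ![g, f] := by
  unfold pairing
  rw [← MeasureTheory.integral_neg]
  congr 1
  funext y
  unfold integrand
  rw [Matrix.det_fin_two, Matrix.det_fin_two]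
  simp only [Matrix.of_apply, Matrix.cons_val_zero, Matrix.cons_val_one]
  rw [← Complex.neg_re]
  congr 1
  ring

theorem reg_swap (Γ : Torus R 1) (x y : Rˣ) :
    Γ.reg (symb ![x, y]) = -Γ.reg (symb ![y, x]) := by
  rw [Torus.reg_symb, Torus.reg_symb]
  unfold Torus.pair
  have e : ∀ x y : Rˣ, (fun l => Γ.fn ((![x, y] : Fin 2 → Rˣ) l : R)) =
      ![Γ.fn (x : R), Γ.fn (y : R)] := by
    intro x y
    funext l
    fin_cases l <;> rfl
  rw [e, e]
  exact pairing_swap _ _

end torus

section hom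

variable {K : Type*} [Field K] {m : ℕ}

/-- The substitution `x ↦ x + y`, `y ↦ x y`. -/
noncomputable def sub : MvPolynomial (Fin 2) K →ₐ[K] MvPolynomial (Fin 2) K :=
  MvPolynomial.aeval ![MvPolynomial.X 0 + MvPolynomial.X 1, MvPolynomial.X 0 * MvPolynomial.X 1]

theorem sub_line (c : K) : sub (line c (c ^ 2)) =
    (MvPolynomial.X 0 - MvPolynomial.C c) * (MvPolynomial.X 1 - MvPolynomial.C c) := by
  unfold sub line
  simp only [map_add, map_sub, map_mul, MvPolynomial.aeval_X, MvPolynomial.aeval_C,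
    Matrix.cons_val_zero, Matrix.cons_val_one, MvPolynomial.algebraMap_eq, map_pow]
  ring

/-- the roots for both variables -/
def dbl (b : Fin (m + 1) → K) : ∀ _ : Fin 2, Fin (m + 1) → K := fun _ => b

/-- The squares `b_i²`. -/
def squares (b : Fin (m + 1) → K) : Fin (m + 1) → K := fun i => b i ^ 2

variable (lam : K) (b : Fin (m + 1) → K)

theorem sub_eqn : sub (eqn lam b (squares b)) =
    Pool.Agent.TH826.MH.eqn (r := fun _ : Fin 2 => m) lam (dbl b) := by
  unfold eqn Pool.Agent.TH826.MH.eqn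
  rw [map_sub, map_mul, map_prod, map_one]
  simp only [squares, sub_line]
  rw [Fin.prod_univ_two, ← Finset.prod_mul_distrib]
  have h : sub (MvPolynomial.C lam : MvPolynomial (Fin 2) K) = MvPolynomial.C lam := by
    unfold sub
    rw [MvPolynomial.aeval_C, MvPolynomial.algebraMap_eq]
  rw [h]
  rfl

/-- the homomorphism of the coordinate rings -/
noncomputable def phi : LRing lam b (squares b) →+* CRing (r := fun _ : Fin 2 => m) lam (dbl b) :=
  Ideal.Quotient.lift (Ideal.span {eqn lam b (squares b)})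
    ((fpol (r := fun _ : Fin 2 => m) lam (dbl b)).comp
      (sub : MvPolynomial (Fin 2) K →ₐ[K] MvPolynomial (Fin 2) K).toRingHom) (by
    intro p hp
    obtain ⟨q, rfl⟩ := Ideal.mem_span_singleton.1 hp
    rw [map_mul]
    have h : ((fpol (r := fun _ : Fin 2 => m) lam (dbl b)).comp
      (sub : MvPolynomial (Fin 2) K →ₐ[K] MvPolynomial (Fin 2) K).toRingHom) (eqn lam b (squares b)) = 0 := by
      show fpol (r := fun _ : Fin 2 => m) lam (dbl b) (sub (eqn lam b (squares b))) = 0
      rw [sub_eqn]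
      exact Pool.Agent.TH826.MH.fpol_eqn _ _
    rw [h, zero_mul])

theorem phi_pol (p : MvPolynomial (Fin 2) K) : phi lam b (pol lam b (squares b) p) =
    fpol (r := fun _ : Fin 2 => m) lam (dbl b) (sub p) :=
  Ideal.Quotient.lift_mk _ _ _

theorem phi_cst (c : K) : phi lam b (cst lam b (squares b) c) =
    fpol (r := fun _ : Fin 2 => m) lam (dbl b) (MvPolynomial.C c) := by
  show phi lam b (pol lam b (squares b) (MvPolynomial.C c)) = _
  rw [phi_pol]
  congr 1
  unfold sub
  rw [MvPolynomial.aeval_C, MvPolynomial.algebraMap_eq]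

theorem phi_lu (i : Fin (m + 1)) :
    Units.map (phi lam b : LRing lam b (squares b) →* CRing (r := fun _ : Fin 2 => m) lam (dbl b)) (lu lam b (squares b) i) =
      ux (r := fun _ : Fin 2 => m) lam (dbl b) 0 i * ux (r := fun _ : Fin 2 => m) lam (dbl b) 1 i := by
  refine Units.ext ?_
  show phi lam b (pol lam b (squares b) (line (b i) (squares b i))) = _
  have h : line (b i) (squares b i) = line (b i) (b i ^ 2) := rfl
  rw [phi_pol, h, sub_line, map_mul, Units.val_mul]
  rfl

end hom

section reg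

variable {K : Type*} [Field K] {m : ℕ} {lam : K} {b : Fin (m + 1) → K}
  (Γ : Torus (CRing (r := fun _ : Fin 2 => m) lam (dbl b)) 1)

/-- the regulators of `{x - b_k, y - b_l}` -/
noncomputable def PP (k l : Fin (m + 1)) : ℝ :=
  Γ.reg (symb ![ux (r := fun _ : Fin 2 => m) lam (dbl b) 0 k,
    ux (r := fun _ : Fin 2 => m) lam (dbl b) 1 l])

theorem reg_div (k k' l l' : Fin (m + 1)) :
    Γ.reg (symb ![ux (r := fun _ : Fin 2 => m) lam (dbl b) 0 k /
        ux (r := fun _ : Fin 2 => m) lam (dbl b) 0 k',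
      ux (r := fun _ : Fin 2 => m) lam (dbl b) 1 l /
        ux (r := fun _ : Fin 2 => m) lam (dbl b) 1 l']) =
      PP Γ k l - PP Γ k l' - PP Γ k' l + PP Γ k' l' := by
  unfold PP
  simp only [div_l, div_r, map_sub]
  ring

theorem reg_ent (i : Fin 2 → Fin m) :
    Γ.reg (symb (Pool.Agent.TH826.MH.ent (r := fun _ : Fin 2 => m) lam (dbl b) i)) =
      PP Γ (i 0).castSucc (i 1).castSucc - PP Γ (i 0).castSucc (i 1).succ -
        PP Γ (i 0).succ (i 1).castSucc + PP Γ (i 0).succ (i 1).succ := by
  rw [← reg_div]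
  congr 2
  funext l
  fin_cases l <;> rfl

theorem fx_rel {i j k : Fin (m + 1)} (hij : b i ≠ b j) (t : Fin 2) :
    fpol (r := fun _ : Fin 2 => m) lam (dbl b) (MvPolynomial.C ((b j - b k) / (b j - b i))) *
        fx (r := fun _ : Fin 2 => m) lam (dbl b) t (b i) +
      fpol (r := fun _ : Fin 2 => m) lam (dbl b) (MvPolynomial.C ((b k - b i) / (b j - b i))) *
        fx (r := fun _ : Fin 2 => m) lam (dbl b) t (b j) =
      fx (r := fun _ : Fin 2 => m) lam (dbl b) t (b k) := by
  unfold fx
  rw [← map_mul, ← map_mul, ← map_add]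
  congr 1
  have hd : b j - b i ≠ 0 := sub_ne_zero.2 (Ne.symm hij)
  have h1 : (MvPolynomial.C ((b j - b k) / (b j - b i)) : MvPolynomial (Fin 2) K) +
      MvPolynomial.C ((b k - b i) / (b j - b i)) = 1 := by
    rw [← MvPolynomial.C_add, ← MvPolynomial.C_1]
    congr 1
    field_simp
    ring
  have h2 : (MvPolynomial.C ((b j - b k) / (b j - b i)) : MvPolynomial (Fin 2) K) *
      MvPolynomial.C (b i) + MvPolynomial.C ((b k - b i) / (b j - b i)) * MvPolynomial.C (b j) =
      MvPolynomial.C (b k) := by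
    rw [← MvPolynomial.C_mul, ← MvPolynomial.C_mul, ← MvPolynomial.C_add]
    congr 1
    field_simp
    ring
  linear_combination (MvPolynomial.X t : MvPolynomial (Fin 2) K) * h1 - h2

/-- The regulators of the symbols on the images of the loops. -/
theorem reg_tri {i j k : Fin (m + 1)} (hij : b i ≠ b j) (hik : b i ≠ b k) (hjk : b j ≠ b k) :
    (pull (phi lam b) Γ).reg (symb (tri lam b (squares b) i j k)) =
      (PP Γ i j - PP Γ i k - PP Γ k j + PP Γ k k) -
        (PP Γ j i - PP Γ j k - PP Γ k i + PP Γ k k) := by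
  set κ : (CRing (r := fun _ : Fin 2 => m) lam (dbl b))ˣ :=
    Units.map (phi lam b : LRing lam b (squares b) →* CRing (r := fun _ : Fin 2 => m) lam (dbl b))
      (Units.map (cst lam b (squares b) : K →* LRing lam b (squares b)) (ku ((b j - b k) / (b j - b i)))) with hκ
  set κ' : (CRing (r := fun _ : Fin 2 => m) lam (dbl b))ˣ :=
    Units.map (phi lam b : LRing lam b (squares b) →* CRing (r := fun _ : Fin 2 => m) lam (dbl b))
      (Units.map (cst lam b (squares b) : K →* LRing lam b (squares b)) (ku ((b k - b i) / (b j - b i)))) with hκ'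
  have hd : b j - b i ≠ 0 := sub_ne_zero.2 (Ne.symm hij)
  have hκv : (κ : CRing (r := fun _ : Fin 2 => m) lam (dbl b)) =
      fpol (r := fun _ : Fin 2 => m) lam (dbl b) (MvPolynomial.C ((b j - b k) / (b j - b i))) := by
    show phi lam b (cst lam b (squares b) (ku ((b j - b k) / (b j - b i)) : K)) = _
    rw [coe_ku (div_ne_zero (sub_ne_zero.2 hjk) hd), phi_cst]
  have hκ'v : (κ' : CRing (r := fun _ : Fin 2 => m) lam (dbl b)) =
      fpol (r := fun _ : Fin 2 => m) lam (dbl b) (MvPolynomial.C ((b k - b i) / (b j - b i))) := by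
    show phi lam b (cst lam b (squares b) (ku ((b k - b i) / (b j - b i)) : K)) = _
    rw [coe_ku (div_ne_zero (sub_ne_zero.2 (Ne.symm hik)) hd), phi_cst]
  set X : Fin (m + 1) → (CRing (r := fun _ : Fin 2 => m) lam (dbl b))ˣ :=
    ux (r := fun _ : Fin 2 => m) lam (dbl b) 0 with hX
  set Y : Fin (m + 1) → (CRing (r := fun _ : Fin 2 => m) lam (dbl b))ˣ :=
    ux (r := fun _ : Fin 2 => m) lam (dbl b) 1 with hY
  have e : (fun l => Units.map (phi lam b : LRing lam b (squares b) →*
      CRing (r := fun _ : Fin 2 => m) lam (dbl b)) (tri lam b (squares b) i j k l)) =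
      ![κ * (X i / X k * (Y i / Y k)), κ' * (X j / X k * (Y j / Y k))] := by
    funext l
    fin_cases l
    · show Units.map _ (_ * (_ / _)) = _
      rw [map_mul, map_div, phi_lu, phi_lu, mul_div_mul_comm]
      rfl
    · show Units.map _ (_ * (_ / _)) = _
      rw [map_mul, map_div, phi_lu, phi_lu, mul_div_mul_comm]
      rfl
  have h1 : (κ : CRing (r := fun _ : Fin 2 => m) lam (dbl b)) + κ' = 1 := by
    rw [hκv, hκ'v, ← map_add, ← MvPolynomial.C_add, ← map_one (fpol lam (dbl b)),
      ← MvPolynomial.C_1]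
    congr 2
    field_simp
    ring
  have hrel : ∀ (t : Fin 2) (Z : Fin (m + 1) → (CRing (r := fun _ : Fin 2 => m) lam (dbl b))ˣ),
      Z = ux (r := fun _ : Fin 2 => m) lam (dbl b) t →
      (κ : CRing (r := fun _ : Fin 2 => m) lam (dbl b)) * ((Z i / Z k :
        (CRing (r := fun _ : Fin 2 => m) lam (dbl b))ˣ) : CRing (r := fun _ : Fin 2 => m) lam (dbl b)) +
      κ' * ((Z j / Z k : (CRing (r := fun _ : Fin 2 => m) lam (dbl b))ˣ) :
        CRing (r := fun _ : Fin 2 => m) lam (dbl b)) = 1 := by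
    intro t Z hZ
    have h2 := fx_rel (lam := lam) (k := k) hij t
    have h3 : (κ : CRing (r := fun _ : Fin 2 => m) lam (dbl b)) * Z i + κ' * Z j = Z k := by
      rw [hκv, hκ'v, hZ]
      exact h2
    have h4 : (Z k : CRing (r := fun _ : Fin 2 => m) lam (dbl b)) * ((Z k)⁻¹ :
        (CRing (r := fun _ : Fin 2 => m) lam (dbl b))ˣ) = 1 := Units.mul_inv _
    rw [div_eq_mul_inv, div_eq_mul_inv, Units.val_mul, Units.val_mul]
    linear_combination ((Z k)⁻¹ : (CRing (r := fun _ : Fin 2 => m) lam (dbl b))ˣ) * h3 + h4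
  rw [pull_symb, e, cover h1 (hrel 0 X hX) (hrel 1 Y hY), map_add, reg_swap Γ (Y i / Y k) _,
    reg_div, reg_div]
  ring

end reg

end Pool.Agent.V5helper77.TL
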