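import Pool.Agent.V5helper77.TL.Ring
import Pool.Agent.TH577.UA.Dom
set_option autoImplicit false

/-!
# The coordinate ring is a domain
-/

namespace Pool.Agent.V5helper77.TL

open Pool.Agent.TH577.UA (aeqn ARing Distinct irreducible_aeqn)

open Pool.Agent.TH826.GA (cm lf)

variable {K : Type*} [Field K] {m : ℕ}

/-- the linear parts of the forms -/
def cc (b : Fin (m + 1) → K) : Fin (m + 1) → Fin (1 + 1) → K := fun i => ![-b i, 1]

/-- the constants of the forms -/
def ac (e : Fin (m + 1) → K) : Fin (m + 1) → K := fun i => -e i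

theorem lf_eq (b e : Fin (m + 1) → K) (i : Fin (m + 1)) : lf (cc b) (ac e) i = line (b i) (e i) := by
  unfold lf cc ac line
  rw [Fin.sum_univ_two]
  simp only [Matrix.cons_val_zero, Matrix.cons_val_one, map_neg, map_one]
  ring

theorem aeqn_eq (lam : K) (b e : Fin (m + 1) → K) :
    aeqn lam 1 (fun _ => 0) (cc b) (ac e) = eqn lam b e := by
  unfold aeqn eqn
  simp only [lf_eq, zero_add, pow_one, one_mul]

theorem det_cc (b : Fin (m + 1) → K) (T : Fin (1 + 1) → Fin (m + 1)) :
    (cm (cc b) T).det = b (T 1) - b (T 0) := by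
  unfold cm cc
  rw [Matrix.det_fin_two]
  simp only [Matrix.of_apply, Matrix.cons_val_zero, Matrix.cons_val_one]
  ring

theorem distinct {b : Fin (m + 1) → K} (hb : Function.Injective b) (e : Fin (m + 1) → K) :
    Distinct (cc b) (ac e) := by
  rintro i j hij κ ⟨h, -⟩
  have h1 := h 1
  have h0 := h 0
  unfold cc at h0 h1
  simp only [Matrix.cons_val_zero, Matrix.cons_val_one] at h0 h1
  rw [mul_one] at h1
  rw [← h1, one_mul] at h0
  exact hij (hb (neg_injective h0))

theorem exists_det (hm : 1 ≤ m) {b : Fin (m + 1) → K} (hb : Function.Injective b) :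
    ∃ T : Fin (1 + 1) → Fin (m + 1), (cm (cc b) T).det ≠ 0 := by
  refine ⟨![0, Fin.last m], ?_⟩
  rw [det_cc]
  refine sub_ne_zero.2 fun h => ?_
  have h1 : Fin.last m = 0 := hb h
  have h2 := congrArg Fin.val h1
  simp only [Fin.val_last, Fin.val_zero] at h2
  omega

theorem isDomain [CharZero K] {lam : K} (hl : lam ≠ 0) (hm : 1 ≤ m) {b e : Fin (m + 1) → K}
    (hb : Function.Injective b) : IsDomain (LRing lam b e) := by
  have hirr : Irreducible (aeqn lam 1 (fun _ => 0) (cc b) (ac e)) :=
    irreducible_aeqn (exists_det hm hb) (distinct hb e) (e0 := 0) ⟨1, one_ne_zero⟩ rfl hl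
  rw [aeqn_eq] at hirr
  have hp : (Ideal.span {eqn lam b e}).IsPrime :=
    (Ideal.span_singleton_prime hirr.ne_zero).2 hirr.prime
  exact Ideal.Quotient.isDomain _

end Pool.Agent.V5helper77.TL
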