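import Pool.Agent.V5helper77.TL.Cover
import Pool.Agent.N686.PF.Lin
set_option autoImplicit false

/-!
# The determinant of the regulators
-/

namespace Pool.Agent.V5helper77.TL

open Pool.Agent.TH826.MK (KQ symb Torus)

open Pool.Agent.TH826.MH (CRing fpol ux fx ent)

section lin

variable {m : ℕ}

/-- the second difference -/
def dd (P : Fin (m + 1) → Fin (m + 1) → ℝ) (k l : Fin m) : ℝ :=
  P k.castSucc l.castSucc - P k.castSucc l.succ - P k.succ l.castSucc + P k.succ l.succ

/-- the difference to the base point -/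
def d0 (P : Fin (m + 1) → Fin (m + 1) → ℝ) (k l : Fin m) : ℝ :=
  P k.castSucc l.castSucc - P k.castSucc (Fin.last m) - P (Fin.last m) l.castSucc +
    P (Fin.last m) (Fin.last m)

theorem const_of_eq {N : ℕ} (f : Fin (N + 1) → ℝ) (hf : ∀ m : Fin N, f m.castSucc = f m.succ)
    (i : Fin (N + 1)) : f i = f 0 := by
  induction i using Fin.induction with
  | zero => rfl
  | succ i ih => rw [← hf i, ih]

theorem d0_eq_zero {F : Fin (m + 1) → Fin (m + 1) → ℝ} (hF : ∀ k l, dd F k l = 0) (k l : Fin m) :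
    d0 F k l = 0 := by
  have h1 : ∀ (i j : Fin (m + 1)) (n : Fin m), F i n.castSucc - F i n.succ =
      F j n.castSucc - F j n.succ := fun i j n => by
    have h3 := const_of_eq (fun i => F i n.castSucc - F i n.succ) (fun m' => by
      have := hF m' n
      unfold dd at this
      linarith)
    exact (h3 i).trans (h3 j).symm
  have h2 : ∀ i j : Fin (m + 1), F k.castSucc i - F (Fin.last m) i =
      F k.castSucc j - F (Fin.last m) j := fun i j => by
    have h3 := const_of_eq (fun j => F k.castSucc j - F (Fin.last m) j) (fun n => by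
      have := h1 k.castSucc (Fin.last m) n
      linarith)
    exact (h3 i).trans (h3 j).symm
  have h4 := h2 l.castSucc (Fin.last m)
  unfold d0
  linarith

variable {τ : Type*} [Fintype τ] [DecidableEq τ]

theorem exists_comb (e : τ ≃ Fin m × Fin m) (P : τ → Fin (m + 1) → Fin (m + 1) → ℝ)
    (hdet : (Matrix.of fun t i : τ => dd (P t) (e i).1 (e i).2).det ≠ 0) (W : Fin m → Fin m → ℝ) :
    ∃ y : τ → ℝ, ∀ i j : Fin m, ∑ t, y t * d0 (P t) i j = W i j := by
  set M : Matrix τ τ ℝ := Matrix.of fun t i : τ => dd (P t) (e i).1 (e i).2 with hM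
  set S : Fin (m + 1) → Fin (m + 1) → ℝ := fun k l =>
    Fin.lastCases (motive := fun _ => ℝ) 0 (fun k => Fin.lastCases (motive := fun _ => ℝ) 0
      (fun l => W k l) l) k with hS
  set y : τ → ℝ := Matrix.vecMul (fun i => dd S (e i).1 (e i).2) M⁻¹ with hy
  have h1 : Matrix.vecMul y M = fun i => dd S (e i).1 (e i).2 := by
    rw [hy, Matrix.vecMul_vecMul, Matrix.nonsing_inv_mul M (isUnit_iff_ne_zero.2 hdet),
      Matrix.vecMul_one]
  set F : Fin (m + 1) → Fin (m + 1) → ℝ := fun k l => (∑ t, y t * P t k l) - S k l with hF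
  have h2 : ∀ k l, dd F k l = 0 := by
    intro k l
    have h3 := congrFun h1 (e.symm (k, l))
    rw [Matrix.vecMul, dotProduct] at h3
    simp only [hM, Matrix.of_apply, Equiv.apply_symm_apply] at h3
    have h4 : ∑ t, y t * dd (P t) k l = (∑ t, y t * P t k.castSucc l.castSucc) -
        (∑ t, y t * P t k.castSucc l.succ) - (∑ t, y t * P t k.succ l.castSucc) +
        ∑ t, y t * P t k.succ l.succ := by
      rw [← Finset.sum_sub_distrib, ← Finset.sum_sub_distrib, ← Finset.sum_add_distrib]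
      refine Finset.sum_congr rfl fun t _ => ?_
      unfold dd
      ring
    rw [h4] at h3
    unfold dd at h3 ⊢
    simp only [hF]
    linarith
  refine ⟨y, fun i j => ?_⟩
  have h5 := d0_eq_zero h2 i j
  have h6 : ∑ t, y t * d0 (P t) i j = (∑ t, y t * P t i.castSucc j.castSucc) -
      (∑ t, y t * P t i.castSucc (Fin.last m)) - (∑ t, y t * P t (Fin.last m) j.castSucc) +
        ∑ t, y t * P t (Fin.last m) (Fin.last m) := by
    rw [← Finset.sum_sub_distrib, ← Finset.sum_sub_distrib, ← Finset.sum_add_distrib]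
    refine Finset.sum_congr rfl fun t _ => ?_
    unfold d0
    ring
  have s1 : S i.castSucc j.castSucc = W i j := by simp [hS]
  have s2 : S i.castSucc (Fin.last m) = 0 := by simp [hS]
  have s3 : ∀ j, S (Fin.last m) j = 0 := fun j => by simp [hS]
  unfold d0 at h5
  simp only [hF, s1, s2, s3] at h5
  rw [h6]
  linarith

/-- the pairs `i < j` -/
abbrev Pairs (m : ℕ) : Type := {p : Fin m × Fin m // p.1 < p.2}

/-- The antisymmetric functionals are independent. -/
theorem indep_pairs (e : τ ≃ Fin m × Fin m) (P : τ → Fin (m + 1) → Fin (m + 1) → ℝ)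
    (hdet : (Matrix.of fun t i : τ => dd (P t) (e i).1 (e i).2).det ≠ 0) (c : Pairs m → ℝ)
    (hc : ∀ t, ∑ p : Pairs m, c p * (d0 (P t) p.1.1 p.1.2 - d0 (P t) p.1.2 p.1.1) = 0) :
    c = 0 := by
  classical
  funext p0
  obtain ⟨y, hy⟩ := exists_comb e P hdet fun i j => if i = p0.1.1 ∧ j = p0.1.2 then 1 else 0
  have h1 : ∑ t, y t * ∑ p : Pairs m, c p * (d0 (P t) p.1.1 p.1.2 - d0 (P t) p.1.2 p.1.1) = 0 :=
    Finset.sum_eq_zero fun t _ => by rw [hc t, mul_zero]
  have h2 : ∑ t, y t * ∑ p : Pairs m, c p * (d0 (P t) p.1.1 p.1.2 - d0 (P t) p.1.2 p.1.1) =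
      ∑ p : Pairs m, c p * ((∑ t, y t * d0 (P t) p.1.1 p.1.2) -
        ∑ t, y t * d0 (P t) p.1.2 p.1.1) := by
    simp only [Finset.mul_sum]
    rw [Finset.sum_comm]
    refine Finset.sum_congr rfl fun p _ => ?_
    rw [← Finset.sum_sub_distrib, Finset.mul_sum]
    refine Finset.sum_congr rfl fun t _ => ?_
    ring
  rw [h2] at h1
  simp only [hy] at h1
  rw [Finset.sum_eq_single p0] at h1
  · rw [if_pos ⟨rfl, rfl⟩, if_neg, sub_zero, mul_one] at h1
    · exact h1
    · rintro ⟨h3, -⟩
      exact absurd h3 p0.2.ne'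
  · intro p _ hp
    rw [if_neg, if_neg, sub_zero, mul_zero]
    · rintro ⟨h3, h4⟩
      have h5 := p.2
      have h6 := p0.2
      rw [← h3, ← h4] at h6
      exact lt_asymm h5 h6
    · rintro ⟨h3, h4⟩
      exact hp (Subtype.ext (Prod.ext h3 h4))
  · intro h
    exact absurd (Finset.mem_univ _) h

end lin

section det

/-- From the independence of functionals to a determinant. -/
theorem exists_det_of {ι τ : Type*} [Fintype ι] [DecidableEq ι] (V : τ → ι → ℝ)
    (h : ∀ c : ι → ℝ, (∀ t, ∑ p, c p * V t p = 0) → c = 0) :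
    ∃ β : ι → τ, (Matrix.of fun t p : ι => V (β t) p).det ≠ 0 := by
  classical
  set e : ι ≃ Fin (Fintype.card ι) := Fintype.equivFin ι with he
  obtain ⟨β, hβ⟩ := Pool.Agent.N686.PF.exists_det (g := Fintype.card ι)
    (fun t l => V t (e.symm l)) (fun c hc => by
      have h1 := h (fun p => c (e p)) (fun t => by
        rw [← hc t, ← Equiv.sum_comp e.symm]
        simp)
      funext l
      have h2 := congrFun h1 (e.symm l)
      simpa using h2)
  refine ⟨fun t => β (e t), ?_⟩
  have h3 : (Matrix.of fun t p : ι => V (β (e t)) p) =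
      ((Matrix.of fun l k : Fin (Fintype.card ι) => V (β k) (e.symm l)).transpose).submatrix e e := by
    ext t p
    simp
  rw [h3, Matrix.det_submatrix_equiv_self, Matrix.det_transpose]
  exact hβ

end det

section main

variable {K : Type*} [Field K] {m : ℕ} {lam : K} {b : Fin (m + 1) → K} {σ : K →+* ℂ}

/-- **The loops.** -/
theorem exists_loops (hl0 : lam ≠ 0) (hinj : Function.Injective b)
    (hcrit : ∀ ξ η : ℂ,
      (Polynomial.derivative (∏ i, (Polynomial.X - Polynomial.C (σ (b i))))).eval ξ = 0 →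
      (Polynomial.derivative (∏ i, (Polynomial.X - Polynomial.C (σ (b i))))).eval η = 0 →
      1 < ‖σ lam * (∏ i, (ξ - σ (b i))) * ∏ i, (η - σ (b i))‖) :
    ∃ Γ : Pairs m → Torus (LRing lam b (squares b)) 1,
      (∀ t θ (x : K), (Γ t).e θ (cst lam b (squares b) x) = σ x) ∧
      (Matrix.of fun t p : Pairs m =>
        (Γ t).reg (symb (tri lam b (squares b) p.1.1.castSucc p.1.2.castSucc (Fin.last m)))).det ≠ 0 := by
  classical
  obtain ⟨Γ0, hΓ0, hdet⟩ := Pool.Agent.N686.DI.exists_tori (r := fun _ : Fin 2 => m)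
    (a := dbl b) (σ := σ) hl0 (fun _ => hinj) hcrit
  set e : (∀ _ : Fin 2, Fin m) ≃ Fin m × Fin m := piFinTwoEquiv fun _ => Fin m with he
  have hdet' : (Matrix.of fun t i : (∀ _ : Fin 2, Fin m) =>
      dd (PP (Γ0 t)) (e i).1 (e i).2).det ≠ 0 := by
    have h1 : (Matrix.of fun t i : (∀ _ : Fin 2, Fin m) => dd (PP (Γ0 t)) (e i).1 (e i).2) =
        Matrix.of fun t i : (∀ _ : Fin 2, Fin m) =>
          (Γ0 t).reg (symb (ent (r := fun _ : Fin 2 => m) lam (dbl b) i)) := by
      ext t i
      rw [Matrix.of_apply, Matrix.of_apply, reg_ent]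
      rfl
    rw [h1]
    exact hdet
  have hne : ∀ {i j : Fin (m + 1)}, i ≠ j → b i ≠ b j := fun h h1 => h (hinj h1)
  have hreg : ∀ (t : ∀ _ : Fin 2, Fin m) (p : Pairs m),
      (pull (phi lam b) (Γ0 t)).reg (symb (tri lam b (squares b) p.1.1.castSucc p.1.2.castSucc (Fin.last m))) =
        d0 (PP (Γ0 t)) p.1.1 p.1.2 - d0 (PP (Γ0 t)) p.1.2 p.1.1 := by
    intro t p
    rw [reg_tri (Γ0 t) (hne fun h => p.2.ne (Fin.castSucc_injective _ h))
      (hne (Fin.castSucc_lt_last _).ne) (hne (Fin.castSucc_lt_last _).ne)]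
    rfl
  obtain ⟨β, hβ⟩ := exists_det_of (fun (t : ∀ _ : Fin 2, Fin m) (p : Pairs m) =>
    (pull (phi lam b) (Γ0 t)).reg (symb (tri lam b (squares b) p.1.1.castSucc p.1.2.castSucc (Fin.last m)))) (fun c hc =>
      indep_pairs e (fun t => PP (Γ0 t)) hdet' c fun t => by
        rw [← hc t]
        exact Finset.sum_congr rfl fun p _ => by rw [hreg])
  refine ⟨fun t => pull (phi lam b) (Γ0 (β t)), fun t θ x => ?_, hβ⟩
  show (Γ0 (β t)).e θ (phi lam b (cst lam b (squares b) x)) = σ x
  rw [phi_cst]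
  exact hΓ0 _ _ _

end main

end Pool.Agent.V5helper77.TL
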