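import Pool.Agent.V5helper77.TL.Large
import Pool.Agent.N686.DI.Int2
set_option autoImplicit false

/-!
# Rational integers
-/

namespace Pool.Agent.V5helper77.TL

open Polynomial

open Pool.Agent.N686.DI (mm mm_succ mm_two mm_five mm_ge_five mm_ge crit_int mm_pos one_lt_of_int_diam
  mm_le_succ)

/-- The critical values `V`, `W` of `P = ∏ (x - b_i)` at the place `σ` satisfy `|λ V W| > 1`. -/
def CriticalProduct {K : Type*} [Field K] {m : ℕ} (σ : K →+* ℂ) (lam : K) (b : Fin (m + 1) → K) :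
    Prop :=
  ∀ ξ η : ℂ, (derivative (∏ i, (X - C (σ (b i))))).eval ξ = 0 →
    (derivative (∏ i, (X - C (σ (b i))))).eval η = 0 →
    1 < ‖σ lam * (∏ i, (ξ - σ (b i))) * ∏ i, (η - σ (b i))‖

/-- `m ≥ 4`, or `m = 3` and `|n| ≥ 4`, or `|n| ≥ 8`, or `|n| (b_i - b_j)² > 64` for some `i`, `j`. -/
def Large {m : ℕ} (n : ℤ) (b : Fin (m + 1) → ℤ) : Prop :=
  4 ≤ m ∨ (m = 3 ∧ 4 ≤ |n|) ∨ 8 ≤ |n| ∨ ∃ i j, 64 < |n| * (b i - b j) ^ 2

theorem mm_three : mm 3 = 3 / 8 := by
  rw [show (3 : ℕ) = 2 + 1 from rfl, mm_succ, mm_two]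
  norm_num

theorem mm_four : mm 4 = 9 / 16 := by
  rw [show (4 : ℕ) = 3 + 1 from rfl, mm_succ, mm_three]
  norm_num

theorem mm_ge_three {n : ℕ} (hn : 3 ≤ n) : 3 / 8 ≤ mm n := by
  induction n, hn using Nat.le_induction with
  | base => exact mm_three.ge
  | succ n hn ih => exact ih.trans (mm_le_succ (by omega))

theorem criticalProduct {m : ℕ} (hm : 2 ≤ m) {n : ℤ} (hn : n ≠ 0) {b : Fin (m + 1) → ℤ}
    (hb : Function.Injective b) (h : Large n b) (σ : ℚ →+* ℂ) :
    CriticalProduct σ (n : ℚ) fun i => (b i : ℚ) := by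
  intro ξ η hξ hη
  simp only [map_intCast] at hξ hη ⊢
  have h1 := crit_int (Nat.succ_pos m) b hb hξ
  have h2 := crit_int (Nat.succ_pos m) b hb hη
  have hn1 : (1 : ℝ) ≤ ‖(n : ℂ)‖ := by
    rw [Complex.norm_intCast]
    exact_mod_cast Int.one_le_abs hn
  have key : ∀ {N c : ℝ}, N ≤ ‖(n : ℂ)‖ → 0 ≤ N → 0 ≤ c → c ≤ mm (m + 1) → 1 < N * c * c →
      1 < ‖(n : ℂ) * (∏ i, (ξ - (b i : ℂ))) * ∏ i, (η - (b i : ℂ))‖ := by
    intro N c hN hN0 hc0 hc h3
    rw [norm_mul, norm_mul]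
    refine h3.trans_le ?_
    have h4 := hc.trans h1
    have h5 := hc.trans h2
    gcongr
  rcases h with h | ⟨h3, h4⟩ | h | ⟨i, j, h⟩
  · exact key hn1 zero_le_one (by norm_num) (mm_ge_five (by omega : 5 ≤ m + 1)) (by norm_num)
  · subst h3
    have h5 : (4 : ℝ) ≤ ‖(n : ℂ)‖ := by
      rw [Complex.norm_intCast]
      exact_mod_cast h4
    exact key h5 (by norm_num) (by norm_num) mm_four.ge (by norm_num)
  · have h5 : (8 : ℝ) ≤ ‖(n : ℂ)‖ := by
      rw [Complex.norm_intCast]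
      exact_mod_cast h
    exact key h5 (by norm_num) (by norm_num) (mm_ge_three (by omega : 3 ≤ m + 1)) (by norm_num)
  · refine one_lt_of_int_diam b hb b hb i j i j ?_ hξ hη
    have h6 : |n| * |b i - b j| * |b i - b j| = |n| * (b i - b j) ^ 2 := by
      rw [mul_assoc, abs_mul_abs_self, pow_two]
    rw [h6]
    exact h

theorem finite_small (m : ℕ) :
    {p : ℤ × (Fin (m + 1) → ℤ) | p.1 ≠ 0 ∧ p.2 0 = 0 ∧ ¬ Large p.1 p.2}.Finite := by
  refine ((Set.finite_Icc (-8 : ℤ) 8).prod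
    (Set.Finite.pi' fun _ : Fin (m + 1) => Set.finite_Icc (-8 : ℤ) 8)).subset ?_
  rintro ⟨n, b⟩ ⟨hn, hb0, hL⟩
  unfold Large at hL
  push Not at hL
  obtain ⟨-, -, h2, h3⟩ := hL
  simp only at hn hb0 h2 h3
  have h4 := Int.one_le_abs hn
  refine ⟨?_, fun i => ?_⟩
  · have h5 := abs_le.1 h2.le
    exact ⟨h5.1, h5.2⟩
  · have h5 := h3 i 0
    rw [hb0, sub_zero] at h5
    have h6 : (b i) ^ 2 ≤ 8 ^ 2 := by nlinarith [sq_nonneg (b i)]
    have h7 := abs_le.1 (abs_le_of_sq_le_sq h6 (by norm_num))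
    exact ⟨h7.1, h7.2⟩

theorem card_pairs (m : ℕ) : Fintype.card (Pairs m) = m * (m - 1) / 2 := by
  classical
  rw [← Finset.sum_range_id, Fintype.card_subtype]
  have h1 : (Finset.univ.filter fun p : Fin m × Fin m => p.1 < p.2).card =
      ∑ j : Fin m, (j : ℕ) := by
    rw [Finset.card_filter, ← Finset.univ_product_univ, Finset.sum_product_right]
    refine Finset.sum_congr rfl fun j _ => ?_
    rw [← Finset.card_filter]
    have h2 : (Finset.univ.filter fun i : Fin m => i < j) = Finset.Iio j := by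
      ext i
      simp
    rw [h2, Fin.card_Iio]
  rw [h1, Fin.sum_univ_eq_sum_range (fun i => i)]

theorem integralPoints_sq {K : Type*} [Field K] {m : ℕ} {b : Fin (m + 1) → K}
    (hb : ∀ i, IsIntegral ℤ (b i)) (hinj : Function.Injective b) : IntegralPoints b (squares b) := by
  refine ⟨hb, fun i => (hb i).pow 2, fun i j hij => ?_⟩
  have h1 : b j - b i ≠ 0 := sub_ne_zero.2 fun h => hij (hinj h).symm
  have h2 : (squares b j - squares b i) / (b j - b i) = b j + b i := by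
    unfold squares
    field_simp
    ring
  rw [h2]
  exact (hb j).add (hb i)

theorem generalPosition_sq {K : Type*} [Field K] {m : ℕ} {b : Fin (m + 1) → K}
    (hinj : Function.Injective b) : GeneralPosition b (squares b) := by
  intro i j k hij hik hjk h
  have h1 : (b j - b i) * ((b k - b i) * (b j - b k)) = 0 := by
    unfold squares at h
    linear_combination h
  have hne : ∀ {x y : Fin (m + 1)}, x ≠ y → b x - b y ≠ 0 := fun hxy =>
    sub_ne_zero.2 fun h => hxy (hinj h)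
  exact mul_ne_zero (hne (Ne.symm hij)) (mul_ne_zero (hne (Ne.symm hik)) (hne hjk)) h1

end Pool.Agent.V5helper77.TL
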