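import Pool.Agent.TH577.UA.Mil
set_option autoImplicit false

/-!
# Symbols with two entries
-/

namespace Pool.Agent.V5helper77.TL

open scoped WithZero

open Pool.Agent.TH826.MK (KQ symb symb_update_mul symb_eq_zero' unitPart Unramified
  mem_unitPart_of_oneUnit' mem_unitPart_of_pow)

section ring

variable {R : Type*} [CommRing R]

theorem up0 (x y z : Rˣ) : Function.update ![x, y] 0 z = ![z, y] := by
  funext i
  fin_cases i <;> simp

theorem up1 (x y z : Rˣ) : Function.update ![x, y] 1 z = ![x, z] := by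
  funext i
  fin_cases i <;> simp

theorem mul_l (x x' y : Rˣ) : symb ![x * x', y] = symb ![x, y] + symb ![x', y] := by
  have h := symb_update_mul ![x, y] 0 x x'
  rwa [up0, up0, up0] at h

theorem mul_r (x y y' : Rˣ) : symb ![x, y * y'] = symb ![x, y] + symb ![x, y'] := by
  have h := symb_update_mul ![x, y] 1 y y'
  rwa [up1, up1, up1] at h

theorem div_l (x x' y : Rˣ) : symb ![x / x', y] = symb ![x, y] - symb ![x', y] := by
  rw [eq_sub_iff_add_eq, ← mul_l, div_mul_cancel]

theorem div_r (x y y' : Rˣ) : symb ![x, y / y'] = symb ![x, y] - symb ![x, y'] := by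
  rw [eq_sub_iff_add_eq, ← mul_r, div_mul_cancel]

theorem one_l (y : Rˣ) : symb ![(1 : Rˣ), y] = 0 := by
  have h := mul_l 1 1 y
  rw [mul_one] at h
  exact left_eq_add.1 h

theorem one_r (y : Rˣ) : symb ![y, (1 : Rˣ)] = 0 := by
  have h := mul_r y 1 1
  rw [mul_one] at h
  exact left_eq_add.1 h

theorem eq_zero_of_add {x : KQ R 2} (h : x + x = 0) : x = 0 := by
  have h1 : (2 : ℚ) • x = 0 := by rw [two_smul]; exact h
  have h2 : (2⁻¹ : ℚ) • ((2 : ℚ) • x) = 0 := by rw [h1, smul_zero]
  rwa [smul_smul, inv_mul_cancel₀ two_ne_zero, one_smul] at h2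

theorem neg_one_l (y : Rˣ) : symb ![(-1 : Rˣ), y] = 0 := by
  refine eq_zero_of_add ?_
  rw [← mul_l, neg_mul_neg, mul_one, one_l]

theorem neg_one_r (y : Rˣ) : symb ![y, (-1 : Rˣ)] = 0 := by
  refine eq_zero_of_add ?_
  rw [← mul_r, neg_mul_neg, mul_one, one_r]

theorem neg_l (x y : Rˣ) : symb ![-x, y] = symb ![x, y] := by
  rw [← neg_one_mul, mul_l, neg_one_l, zero_add]

theorem neg_r (x y : Rˣ) : symb ![x, -y] = symb ![x, y] := by
  rw [← neg_one_mul, mul_r, neg_one_r, zero_add]

theorem st {x y : Rˣ} (h : (x : R) + (y : R) = 1) : symb ![x, y] = 0 :=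
  symb_eq_zero' ![x, y] (i := 0) (j := 1) (by decide) h

/-- the pull-back of the symbol of three tangent lines -/
theorem cover {κ κ' xi xj yi yj : Rˣ} (h1 : (κ : R) + κ' = 1) (h2 : (κ : R) * xi + κ' * xj = 1)
    (h3 : (κ : R) * yi + κ' * yj = 1) :
    symb ![κ * (xi * yi), κ' * (xj * yj)] = symb ![xi, yj] + symb ![yi, xj] := by
  have e1 : symb ![κ, κ'] = 0 := st h1
  have e2 : symb ![κ * xi, κ' * xj] = 0 := st (by rw [Units.val_mul, Units.val_mul]; exact h2)
  have e3 : symb ![κ * yi, κ' * yj] = 0 := st (by rw [Units.val_mul, Units.val_mul]; exact h3)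
  simp only [mul_l, mul_r] at e2 e3 ⊢
  rw [e1] at e2 e3 ⊢
  rw [← sub_eq_zero]
  refine Eq.trans ?_ ((congrArg₂ (· + ·) e2 e3).trans (add_zero 0))
  beta_reduce
  abel

end ring

section field

variable {L : Type*} [Field L]

theorem self (x : Lˣ) : symb ![x, x] = 0 := by
  by_cases h1 : (x : L) = 1
  · have h2 : x = 1 := Units.ext h1
    rw [h2, one_l]
  · have h0 : (1 : L) - x ≠ 0 := sub_ne_zero.2 (Ne.symm h1)
    have h3 : (1 : L) - (x : L)⁻¹ ≠ 0 := by
      rw [sub_ne_zero]
      intro h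
      exact h1 (by rw [← inv_inv (x : L), ← h, inv_one])
    -- `-x = (1 - x) / (1 - 1/x)`
    have e : -x = Units.mk0 _ h0 / Units.mk0 _ h3 := by
      refine Units.ext ?_
      rw [Units.val_neg, Units.val_div_eq_div_val, Units.val_mk0, Units.val_mk0, eq_div_iff h3]
      have := x.ne_zero
      field_simp
      ring
    rw [← neg_r, e, div_r, st (y := Units.mk0 _ h0) (by rw [Units.val_mk0]; ring)]
    have h4 : symb ![x⁻¹, Units.mk0 _ h3] = 0 := st (by
      rw [Units.val_mk0, Units.val_inv_eq_inv_val]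
      ring)
    have h5 : symb ![x⁻¹, Units.mk0 _ h3] = symb ![(1 : Lˣ), Units.mk0 _ h3] -
        symb ![x, Units.mk0 _ h3] := by rw [← div_l, one_div]
    rw [h4, one_l, zero_sub] at h5
    rw [zero_sub, ← h5]

theorem swap (x y : Lˣ) : symb ![x, y] = -symb ![y, x] := by
  have h := self (x * y)
  rw [mul_l, mul_r, mul_r, self, self, zero_add, add_zero] at h
  exact eq_neg_of_add_eq_zero_left h

/-- the symbol of three lines as a sum of three symbols -/
theorem three {κ κ' ai aj ak c1 c2 c3 : Lˣ} (z : Lˣ) (h1 : (κ : L) + κ' = 1)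
    (hκ : κ = -(c2 / c1)) (hκ' : κ' = -(c3 / c1)) :
    symb ![κ * (ai / ak), κ' * (aj / ak)] =
      symb ![ai / (z * c1), -(aj / (z * c1))] + symb ![aj / (z * c2), -(ak / (z * c2))] +
        symb ![ak / (z * c3), -(ai / (z * c3))] := by
  have e1 : symb ![κ, κ'] = 0 := st h1
  simp only [mul_l, mul_r, e1]
  rw [hκ, hκ']
  simp only [neg_l, neg_r, mul_l, mul_r, div_l, div_r, self]
  rw [swap ak ai, swap ai c3, swap ak c3, swap ai c1, swap ak c1, swap ak aj, swap ai z,
    swap aj z, swap ak z, swap c1 z, swap c2 z, swap c3 z, swap aj c2]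
  abel

variable (v : Valuation L ℤᵐ⁰)

theorem unr_neg {A B : Lˣ} (h : v ((A : L) + B) < v (B : L)) : symb ![A, B] ∈ unitPart v 2 := by
  have e : symb ![A, B] = symb ![-(A / B), B] := by rw [neg_l, div_l, self, sub_zero]
  rw [e]
  refine mem_unitPart_of_oneUnit' v 0 _ ?_
  show v (((-(A / B) : Lˣ) : L) - 1) < 1
  have hB : (B : L) ≠ 0 := B.ne_zero
  have e2 : ((-(A / B) : Lˣ) : L) - 1 = -(((A : L) + B) / B) := by
    rw [Units.val_neg, Units.val_div_eq_div_val]
    field_simp
    ring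
  rw [e2, Valuation.map_neg, map_div₀]
  exact (div_lt_one₀ (zero_lt_iff.2 ((Valuation.ne_zero_iff v).2 hB))).2 h

theorem unr_unit {A B : Lˣ} (hA : v (A : L) = 1) (hB : v (B : L) = 1) :
    symb ![A, B] ∈ unitPart v 2 :=
  Submodule.subset_span ⟨_, fun l => by fin_cases l; exacts [hA, hB], rfl⟩

theorem unr_one {A B : Lˣ} (h : v ((A : L) + B - 1) < 1) : symb ![A, B] ∈ unitPart v 2 := by
  have hAB : v ((A : L) + B) = 1 := by
    have e : (A : L) + B = 1 + ((A : L) + B - 1) := by ring
    rw [e]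
    exact Valuation.map_one_add_of_lt v h
  rcases lt_trichotomy (v (B : L)) 1 with hB | hB | hB
  · refine mem_unitPart_of_oneUnit' v 0 _ ?_
    show v ((A : L) - 1) < 1
    have e : (A : L) - 1 = ((A : L) + B - 1) - B := by ring
    rw [e]
    exact (v.map_sub _ _).trans_lt (max_lt h hB)
  · rcases lt_or_eq_of_le (show v (A : L) ≤ 1 by
      have e : (A : L) = ((A : L) + B) - B := by ring
      rw [e]
      exact (v.map_sub _ _).trans (max_le hAB.le hB.le)) with hA | hA
    · refine mem_unitPart_of_oneUnit' v 1 _ ?_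
      show v ((B : L) - 1) < 1
      have e : (B : L) - 1 = ((A : L) + B - 1) - A := by ring
      rw [e]
      exact (v.map_sub _ _).trans_lt (max_lt h hA)
    · exact unr_unit v hA hB
  · exact unr_neg v (by rw [hAB]; exact hB)

end field

end Pool.Agent.V5helper77.TL
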