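import Pool.Agent.V5helper77.TL.Cover
set_option autoImplicit false

/-!
# Smoothness
-/

namespace Pool.Agent.V5helper77.TL

open MvPolynomial (X C pderiv eval eval₂ aeval)

/-- the chain rule -/
theorem chain {K S : Type*} [CommRing K] [CommRing S] [Algebra K S] (D : Derivation K S S) {n : ℕ}
    (g : Fin n → S) (f : MvPolynomial (Fin n) K) :
    D (aeval g f) = ∑ i, aeval g (pderiv i f) * D (g i) := by
  induction f using MvPolynomial.induction_on with
  | C a =>
    rw [MvPolynomial.aeval_C, Derivation.map_algebraMap]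
    symm
    refine Finset.sum_eq_zero fun i _ => ?_
    rw [MvPolynomial.pderiv_C, map_zero, zero_mul]
  | add p q hp hq =>
    rw [map_add, map_add, hp, hq, ← Finset.sum_add_distrib]
    refine Finset.sum_congr rfl fun i _ => ?_
    rw [map_add, map_add, add_mul]
  | mul_X p j hp =>
    have h1 : ∀ i, aeval g (pderiv i (p * X j)) * D (g i) =
        g j * (aeval g (pderiv i p) * D (g i)) + if i = j then aeval g p * D (g j) else 0 := by
      intro i
      rw [Derivation.leibniz, map_add, smul_eq_mul, smul_eq_mul, map_mul, map_mul,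
        MvPolynomial.aeval_X, MvPolynomial.pderiv_X]
      by_cases hij : i = j
      · subst hij
        rw [Pi.single_eq_same, if_pos rfl, map_one]
        ring
      · rw [Pi.single_eq_of_ne (Ne.symm hij), if_neg hij, map_zero]
        ring
    simp only [h1]
    rw [Finset.sum_add_distrib, ← Finset.mul_sum, ← hp, Finset.sum_ite_eq' Finset.univ j,
      if_pos (Finset.mem_univ j), map_mul, MvPolynomial.aeval_X, Derivation.leibniz, smul_eq_mul,
      smul_eq_mul]
    ring

section defs

variable {K : Type*} [Field K] {m : ℕ}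

/-- The homogeneous polynomial `λ ∏_i (y - b_i x + e_i z) - z ^ (m + 1)`. -/
noncomputable def heqn (lam : K) (b e : Fin (m + 1) → K) : MvPolynomial (Fin 3) K :=
  C lam * ∏ i, (X 1 - C (b i) * X 0 + C (e i) * X 2) - X 2 ^ (m + 1)

/-- The gradient of the homogeneous polynomial does not vanish at the points (over `σ`) of the complex
projective plane curve defined by it. -/
def SmoothProjective (σ : K →+* ℂ) (lam : K) (b e : Fin (m + 1) → K) : Prop :=
  ∀ x : Fin 3 → ℂ, x ≠ 0 → eval₂ σ x (heqn lam b e) = 0 →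
    ∃ k, eval₂ σ x (pderiv k (heqn lam b e)) ≠ 0

/-- The gradient does not vanish at the points of the affine curve. -/
def SmoothAffine (σ : K →+* ℂ) (lam : K) (b e : Fin (m + 1) → K) : Prop :=
  ∀ x : Fin 2 → ℂ, eval₂ σ x (eqn lam b e) = 0 → ∃ k, eval₂ σ x (pderiv k (eqn lam b e)) ≠ 0

end defs

section complex

variable {m : ℕ} {l : ℂ} {β ε : Fin (m + 1) → ℂ}

theorem smooth_proj (hl : l ≠ 0) (hβ : Function.Injective β)
    (h : ∀ y : Fin 2 → ℂ, eval y (eqn l β ε) = 0 → ∃ k, eval y (pderiv k (eqn l β ε)) ≠ 0)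
    (x : Fin 3 → ℂ) (hx0 : x ≠ 0) (hx : eval x (heqn l β ε) = 0) :
    ∃ k, eval x (pderiv k (heqn l β ε)) ≠ 0 := by
  have hev : eval x (heqn l β ε) = l * ∏ i, (x 1 - β i * x 0 + ε i * x 2) - x 2 ^ (m + 1) := by
    unfold heqn
    simp
  rw [hev] at hx
  by_cases hz : x 2 = 0
  · -- the points at infinity
    rw [hz, zero_pow (Nat.succ_ne_zero m), sub_zero] at hx
    simp only [mul_zero, add_zero] at hx
    obtain ⟨i, -, hi⟩ := Finset.prod_eq_zero_iff.1 ((mul_eq_zero.1 hx).resolve_left hl)
    have hx00 : x 0 ≠ 0 := by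
      intro h0
      rw [h0, mul_zero, sub_zero] at hi
      refine hx0 (funext fun k => ?_)
      fin_cases k
      · exact h0
      · exact hi
      · exact hz
    refine ⟨1, ?_⟩
    set g : Fin 3 → Polynomial ℂ := ![Polynomial.C (x 0), Polynomial.X, Polynomial.C (x 2)] with hg
    have h1 := chain (Polynomial.derivative' (R := ℂ)) g (heqn l β ε)
    rw [Fin.sum_univ_three] at h1
    have hg0 : Polynomial.derivative' (g 0) = 0 := Polynomial.derivative_C
    have hg1 : Polynomial.derivative' (g 1) = 1 := Polynomial.derivative_X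
    have hg2 : Polynomial.derivative' (g 2) = 0 := Polynomial.derivative_C
    rw [hg0, hg1, hg2, mul_zero, mul_zero, zero_add, add_zero, mul_one] at h1
    have h2 : aeval g (heqn l β ε) = Polynomial.C l * ∏ i, (Polynomial.X -
        Polynomial.C (β i * x 0)) := by
      unfold heqn
      rw [map_sub, map_mul, map_pow, map_prod, MvPolynomial.aeval_C, MvPolynomial.aeval_X]
      have e1 : g 2 = 0 := by
        show Polynomial.C (x 2) = 0
        rw [hz, Polynomial.C_0]
      rw [e1, zero_pow (Nat.succ_ne_zero m), sub_zero, Polynomial.algebraMap_eq]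
      congr 1
      refine Finset.prod_congr rfl fun i _ => ?_
      rw [map_add, map_sub, map_mul, map_mul, MvPolynomial.aeval_X, MvPolynomial.aeval_X,
        MvPolynomial.aeval_X, MvPolynomial.aeval_C, e1, mul_zero, add_zero,
        Polynomial.algebraMap_eq, Polynomial.C_mul]
      rfl
    have hsep : (∏ i, (Polynomial.X - Polynomial.C (β i * x 0))).Separable :=
      Polynomial.separable_prod_X_sub_C_iff.2 fun i j hij =>
        hβ (mul_right_cancel₀ hx00 hij)
    have hroot : Polynomial.aeval (x 1) (∏ i, (Polynomial.X - Polynomial.C (β i * x 0))) = 0 := by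
      rw [map_prod]
      refine Finset.prod_eq_zero (Finset.mem_univ i) ?_
      rw [map_sub, Polynomial.aeval_X, Polynomial.aeval_C]
      exact hi
    have h3 := hsep.aeval_derivative_ne_zero hroot
    have h4 : eval x (pderiv 1 (heqn l β ε)) =
        Polynomial.aeval (x 1) (aeval g (pderiv 1 (heqn l β ε))) := by
      have e2 : ((Polynomial.aeval (x 1)).comp (aeval g) : MvPolynomial (Fin 3) ℂ →ₐ[ℂ] ℂ) =
          aeval x := by
        refine MvPolynomial.algHom_ext fun k => ?_
        rw [AlgHom.comp_apply, MvPolynomial.aeval_X, MvPolynomial.aeval_X]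
        fin_cases k
        · show Polynomial.aeval (x 1) (Polynomial.C (x 0)) = _
          rw [Polynomial.aeval_C]
          rfl
        · show Polynomial.aeval (x 1) Polynomial.X = _
          rw [Polynomial.aeval_X]
          rfl
        · show Polynomial.aeval (x 1) (Polynomial.C (x 2)) = _
          rw [Polynomial.aeval_C]
          rfl
      have e3 := congrArg (fun F : MvPolynomial (Fin 3) ℂ →ₐ[ℂ] ℂ => F (pderiv 1 (heqn l β ε))) e2
      exact e3.symm
    rw [h4, ← h1, h2]
    show Polynomial.aeval (x 1) (Polynomial.derivative (Polynomial.C l * _)) ≠ 0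
    rw [Polynomial.derivative_C_mul, map_mul, Polynomial.aeval_C]
    exact mul_ne_zero hl h3
  · -- the affine points
    set z : ℂ := x 2 with hzdef
    set y : Fin 2 → ℂ := ![x 0 / z, x 1 / z] with hy
    set g : Fin 3 → MvPolynomial (Fin 2) ℂ := ![C z * X 0, C z * X 1, C z] with hg
    have hF : aeval g (heqn l β ε) = C (z ^ (m + 1)) * eqn l β ε := by
      unfold heqn eqn line
      rw [map_sub, map_mul, map_pow, map_prod, MvPolynomial.aeval_C, MvPolynomial.aeval_X]
      have e1 : ∀ i, aeval g (X 1 - C (β i) * X 0 + C (ε i) * X 2) =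
          C z * (X 1 - C (β i) * X 0 + C (ε i)) := by
        intro i
        rw [map_add, map_sub, map_mul, map_mul, MvPolynomial.aeval_X, MvPolynomial.aeval_X,
          MvPolynomial.aeval_X, MvPolynomial.aeval_C, MvPolynomial.aeval_C]
        show C z * X 1 - C (β i) * (C z * X 0) + C (ε i) * C z = _
        ring
      simp only [e1]
      rw [Finset.prod_mul_distrib, Finset.prod_const, Finset.card_univ, Fintype.card_fin, map_pow]
      show C l * (C z ^ (m + 1) * _) - C z ^ (m + 1) = _
      ring
    have hcomp : ∀ f : MvPolynomial (Fin 3) ℂ, eval y (aeval g f) = eval x f := by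
      intro f
      have e2 : ((aeval y : MvPolynomial (Fin 2) ℂ →ₐ[ℂ] ℂ).comp (aeval g) :
          MvPolynomial (Fin 3) ℂ →ₐ[ℂ] ℂ) = aeval x := by
        refine MvPolynomial.algHom_ext fun k => ?_
        rw [AlgHom.comp_apply, MvPolynomial.aeval_X, MvPolynomial.aeval_X]
        fin_cases k
        · show aeval y (C z * X 0) = x 0
          rw [map_mul, MvPolynomial.aeval_C, MvPolynomial.aeval_X]
          show z * (x 0 / z) = x 0
          field_simp
        · show aeval y (C z * X 1) = x 1
          rw [map_mul, MvPolynomial.aeval_C, MvPolynomial.aeval_X]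
          show z * (x 1 / z) = x 1
          field_simp
        · show aeval y (C z) = x 2
          rw [MvPolynomial.aeval_C]
          rfl
      exact congrArg (fun F : MvPolynomial (Fin 3) ℂ →ₐ[ℂ] ℂ => F f) e2
    have hxF : eval x (heqn l β ε) = 0 := by rw [hev]; exact hx
    have hzp : z ^ (m + 1) ≠ 0 := pow_ne_zero _ hz
    have hy0 : eval y (eqn l β ε) = 0 := by
      have h1 := hcomp (heqn l β ε)
      rw [hF, hxF, map_mul, MvPolynomial.eval_C] at h1
      exact (mul_eq_zero.1 h1).resolve_left hzp
    obtain ⟨k, hk⟩ := h y hy0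
    refine ⟨k.castSucc, fun h0 => hk ?_⟩
    have h1 := chain (pderiv k : Derivation ℂ (MvPolynomial (Fin 2) ℂ) _) g (heqn l β ε)
    rw [hF, Fin.sum_univ_three, MvPolynomial.pderiv_C_mul] at h1
    have hg0 : pderiv k (g 0) = C z * pderiv k (X 0) := by
      show pderiv k (C z * X 0) = _
      rw [MvPolynomial.pderiv_C_mul]
    have hg1 : pderiv k (g 1) = C z * pderiv k (X 1) := by
      show pderiv k (C z * X 1) = _
      rw [MvPolynomial.pderiv_C_mul]
    have hg2 : pderiv k (g 2) = 0 := MvPolynomial.pderiv_C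
    rw [hg0, hg1, hg2, mul_zero, add_zero] at h1
    have h2 := congrArg (eval y) h1
    rw [map_mul, map_add, map_mul, map_mul, map_mul, map_mul,
      hcomp, hcomp, MvPolynomial.eval_C, MvPolynomial.eval_C] at h2
    have h3 : eval x (pderiv 0 (heqn l β ε)) * (z * eval y (pderiv k (X 0))) +
        eval x (pderiv 1 (heqn l β ε)) * (z * eval y (pderiv k (X 1))) = 0 := by
      fin_cases k
      · have e0 : eval x (pderiv 0 (heqn l β ε)) = 0 := h0
        rw [e0, zero_mul, zero_add]
        have e1 : pderiv (0 : Fin 2) (X 1 : MvPolynomial (Fin 2) ℂ) = 0 :=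
          MvPolynomial.pderiv_X_of_ne (by decide)
        show eval x (pderiv 1 (heqn l β ε)) * (z * eval y (pderiv (0 : Fin 2) (X 1))) = 0
        rw [e1, map_zero, mul_zero, mul_zero]
      · have e0 : eval x (pderiv 1 (heqn l β ε)) = 0 := h0
        rw [e0, zero_mul, add_zero]
        have e1 : pderiv (1 : Fin 2) (X 0 : MvPolynomial (Fin 2) ℂ) = 0 :=
          MvPolynomial.pderiv_X_of_ne (by decide)
        show eval x (pderiv 0 (heqn l β ε)) * (z * eval y (pderiv (1 : Fin 2) (X 0))) = 0
        rw [e1, map_zero, mul_zero, mul_zero]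
    rw [h3] at h2
    exact (mul_eq_zero.1 h2).resolve_left hzp

/-- affine smoothness for the tangent lines of a parabola -/
theorem smooth_aff {β : Fin (m + 1) → ℂ} (hcrit : ∀ ξ η : ℂ,
      (Polynomial.derivative (∏ i, (Polynomial.X - Polynomial.C (β i)))).eval ξ = 0 →
      (Polynomial.derivative (∏ i, (Polynomial.X - Polynomial.C (β i)))).eval η = 0 →
      1 < ‖l * (∏ i, (ξ - β i)) * ∏ i, (η - β i)‖) (x : Fin 2 → ℂ)
    (hx : eval x (eqn l β (squares β)) = 0) : ∃ k, eval x (pderiv k (eqn l β (squares β))) ≠ 0 := by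
  obtain ⟨r, hr⟩ := IsAlgClosed.exists_pow_nat_eq (x 0 ^ 2 - 4 * x 1) (n := 2) two_pos
  set u : ℂ := (x 0 + r) / 2 with hu
  set w : ℂ := (x 0 - r) / 2 with hw
  set y : Fin 2 → ℂ := ![u, w] with hy
  have huw : u + w = x 0 := by rw [hu, hw]; ring
  have huw2 : u * w = x 1 := by
    rw [hu, hw]
    linear_combination (-1 / 4 : ℂ) * hr
  have hcomp : ∀ f : MvPolynomial (Fin 2) ℂ, eval y (sub f) = eval x f := by
    intro f
    have e2 : ((aeval y : MvPolynomial (Fin 2) ℂ →ₐ[ℂ] ℂ).comp sub) = aeval x := by
      refine MvPolynomial.algHom_ext fun k => ?_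
      rw [AlgHom.comp_apply, MvPolynomial.aeval_X]
      unfold sub
      rw [MvPolynomial.aeval_X]
      fin_cases k
      · show aeval y (X 0 + X 1) = x 0
        rw [map_add, MvPolynomial.aeval_X, MvPolynomial.aeval_X]
        exact huw
      · show aeval y (X 0 * X 1) = x 1
        rw [map_mul, MvPolynomial.aeval_X, MvPolynomial.aeval_X]
        exact huw2
    exact congrArg (fun F : MvPolynomial (Fin 2) ℂ →ₐ[ℂ] ℂ => F f) e2
  have h1 := Pool.Agent.N686.DI.smooth (r := fun _ : Fin 2 => m) (RingHom.id ℂ) (dbl β) (lam := l)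
    hcrit y (by
      rw [← sub_eqn]
      show eval y (sub (eqn l β (squares β))) = 0
      rw [hcomp, hx])
  obtain ⟨k, hk⟩ := h1
  by_contra hcon
  push Not at hcon
  refine hk ?_
  rw [← sub_eqn]
  show eval y (pderiv k (sub (eqn l β (squares β)))) = 0
  unfold sub
  rw [chain (pderiv k : Derivation ℂ (MvPolynomial (Fin 2) ℂ) _), map_sum]
  refine Finset.sum_eq_zero fun i _ => ?_
  rw [map_mul]
  have h2 := hcomp (pderiv i (eqn l β (squares β)))
  unfold sub at h2
  rw [h2, hcon i, zero_mul]

end complex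

section main

variable {K : Type*} [Field K] {m : ℕ} {lam : K} {b e : Fin (m + 1) → K} {σ : K →+* ℂ}

theorem map_eqn : MvPolynomial.map σ (eqn lam b e) = eqn (σ lam) (fun i => σ (b i)) fun i => σ (e i) := by
  unfold eqn line
  simp

theorem map_heqn : MvPolynomial.map σ (heqn lam b e) =
    heqn (σ lam) (fun i => σ (b i)) fun i => σ (e i) := by
  unfold heqn
  simp

theorem smoothProjective (hl : lam ≠ 0) (hb : Function.Injective b) (h : SmoothAffine σ lam b e) :
    SmoothProjective σ lam b e := by
  intro x hx0 hx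
  have h1 : ∀ k, eval₂ σ x (pderiv k (heqn lam b e)) =
      eval x (pderiv k (heqn (σ lam) (fun i => σ (b i)) fun i => σ (e i))) := fun k => by
    rw [← map_heqn, MvPolynomial.pderiv_map, MvPolynomial.eval_map]
  simp only [h1]
  refine smooth_proj ((map_ne_zero σ).2 hl) (fun i j hij => hb (σ.injective hij)) (fun y hy => ?_)
    x hx0 ?_
  · obtain ⟨k, hk⟩ := h y (by rw [← MvPolynomial.eval_map, map_eqn]; exact hy)
    refine ⟨k, ?_⟩
    rw [← map_eqn, MvPolynomial.pderiv_map, MvPolynomial.eval_map]
    exact hk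
  · rw [← map_heqn, MvPolynomial.eval_map]
    exact hx

theorem smoothAffine_sq (hcrit : ∀ ξ η : ℂ,
      (Polynomial.derivative (∏ i, (Polynomial.X - Polynomial.C (σ (b i))))).eval ξ = 0 →
      (Polynomial.derivative (∏ i, (Polynomial.X - Polynomial.C (σ (b i))))).eval η = 0 →
      1 < ‖σ lam * (∏ i, (ξ - σ (b i))) * ∏ i, (η - σ (b i))‖) : SmoothAffine σ lam b (squares b) := by
  intro x hx
  have e1 : (fun i => σ (squares b i)) = squares fun i => σ (b i) := by
    funext i
    unfold squares
    rw [map_pow]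
  obtain ⟨k, hk⟩ := smooth_aff (l := σ lam) (β := fun i => σ (b i)) hcrit x (by
    rw [← MvPolynomial.eval_map, map_eqn, e1] at hx
    exact hx)
  refine ⟨k, ?_⟩
  rw [← MvPolynomial.eval_map, ← MvPolynomial.pderiv_map, map_eqn, e1]
  exact hk

end main

end Pool.Agent.V5helper77.TL
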