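import Pool.Agent.V5helper77.TL.Ind
import Pool.Agent.V5helper77.TL.Smooth
import Pool.Agent.V5helper77.TL.Dom
import Pool.Agent.TH577.UA.Smooth
set_option autoImplicit false

/-!
# Large `λ`
-/

namespace Pool.Agent.V5helper77.TL

open Pool.Agent.TH826.MK (KQ symb Torus)

open Pool.Agent.TH577.UA (aeqn ARing apol acst au aent pent hi kap Distinct Ix Nbc le_hi)

open Pool.Agent.TH826.GA (cm lf vtx)

variable {K : Type*} [Field K] {m : ℕ}

/-- There are as many loops in the complex points (over `σ`) of the curve as pairs `i < j < m`, such that the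
determinant of the regulators of the symbols of the lines `i`, `j`, `m` on the loops does not vanish. -/
def IndependentRegulators (σ : K →+* ℂ) (lam : K) (b e : Fin (m + 1) → K) : Prop :=
  ∃ Γ : Pairs m → Torus (LRing lam b e) 1,
    (∀ t θ (x : K), (Γ t).e θ (cst lam b e x) = σ x) ∧
    (Matrix.of fun t p : Pairs m =>
      (Γ t).reg (symb (tri lam b e p.1.1.castSucc p.1.2.castSucc (Fin.last m)))).det ≠ 0

/-- No three of the lines have a common point. -/
def GeneralPosition (b e : Fin (m + 1) → K) : Prop :=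
  ∀ i j k, i ≠ j → i ≠ k → j ≠ k → (e j - e i) * (b k - b i) ≠ (e k - e i) * (b j - b i)

section psi

variable (lam : K) (b e : Fin (m + 1) → K)

/-- the identity map of the coordinate rings -/
noncomputable def psi : LRing lam b e →+* ARing lam 1 (fun _ => 0) (cc b) (ac e) :=
  Ideal.Quotient.lift (Ideal.span {eqn lam b e}) (apol lam 1 (fun _ => 0) (cc b) (ac e)) (by
    intro p hp
    obtain ⟨q, rfl⟩ := Ideal.mem_span_singleton.1 hp
    rw [map_mul, ← aeqn_eq, Pool.Agent.TH577.UA.apol_aeqn, zero_mul])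

theorem psi_pol (p : MvPolynomial (Fin 2) K) : psi lam b e (pol lam b e p) =
    apol lam 1 (fun _ => 0) (cc b) (ac e) p :=
  Ideal.Quotient.lift_mk _ _ _

theorem psi_lu (i : Fin (m + 1)) :
    Units.map (psi lam b e : LRing lam b e →* ARing lam 1 (fun _ => 0) (cc b) (ac e))
      (lu lam b e i) = au lam 1 (fun _ => 0) (cc b) (ac e) i := by
  refine Units.ext ?_
  show psi lam b e (pol lam b e (line (b i) (e i))) = apol lam 1 (fun _ => 0) (cc b) (ac e) _
  rw [psi_pol, lf_eq]

theorem psi_cst (u : Kˣ) :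
    Units.map (psi lam b e : LRing lam b e →* ARing lam 1 (fun _ => 0) (cc b) (ac e))
      (Units.map (cst lam b e : K →* LRing lam b e) u) =
      Units.map (acst lam 1 (fun _ => 0) (cc b) (ac e) :
        K →* ARing lam 1 (fun _ => 0) (cc b) (ac e)) u := by
  refine Units.ext ?_
  show psi lam b e (pol lam b e (MvPolynomial.C (u : K))) = _
  rw [psi_pol]
  rfl

end psi

section Tp

/-- the basis of a pair -/
def Tp (p : Pairs m) : Fin (1 + 1) → Fin (m + 1) := ![p.1.1.castSucc, p.1.2.castSucc]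

variable {b e : Fin (m + 1) → K} (hb : Function.Injective b)

include hb in
theorem det_ne {T : Fin (1 + 1) → Fin (m + 1)} (h : T 0 ≠ T 1) : (cm (cc b) T).det ≠ 0 := by
  rw [det_cc]
  exact sub_ne_zero.2 fun h1 => h (hb h1).symm

include hb in
theorem hi_Tp (p : Pairs m) (l : Fin (1 + 1)) : hi (cc b) (Tp p) l = Fin.last m := by
  refine le_antisymm (Fin.le_last _) (le_hi ?_)
  refine det_ne hb ?_
  fin_cases l
  · show Function.update (Tp p) 0 (Fin.last m) 0 ≠ Function.update (Tp p) 0 (Fin.last m) 1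
    rw [Function.update_self, Function.update_of_ne (by decide)]
    exact (Fin.castSucc_lt_last _).ne'
  · show Function.update (Tp p) 1 (Fin.last m) 0 ≠ Function.update (Tp p) 1 (Fin.last m) 1
    rw [Function.update_self, Function.update_of_ne (by decide)]
    exact (Fin.castSucc_lt_last _).ne

include hb in
theorem kap_Tp0 (p : Pairs m) : kap (cc b) (Tp p) 0 =
    (b p.1.2.castSucc - b (Fin.last m)) / (b p.1.2.castSucc - b p.1.1.castSucc) := by
  unfold kap
  rw [hi_Tp hb, det_cc, det_cc, Function.update_self, Function.update_of_ne (by decide)]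
  rfl

include hb in
theorem kap_Tp1 (p : Pairs m) : kap (cc b) (Tp p) 1 =
    (b (Fin.last m) - b p.1.1.castSucc) / (b p.1.2.castSucc - b p.1.1.castSucc) := by
  unfold kap
  rw [hi_Tp hb, det_cc, det_cc, Function.update_self, Function.update_of_ne (by decide)]
  rfl

include hb in
theorem psi_tri (lam : K) (p : Pairs m) (l : Fin 2) :
    Units.map (psi lam b e : LRing lam b e →* ARing lam 1 (fun _ => 0) (cc b) (ac e))
      (tri lam b e p.1.1.castSucc p.1.2.castSucc (Fin.last m) l) =
      aent lam 1 (fun _ => 0) (cc b) (ac e) (Tp p) l := by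
  unfold aent pent
  rw [hi_Tp hb]
  fin_cases l
  · show Units.map _ (_ * (_ / _)) = _ * (au lam 1 (fun _ => 0) (cc b) (ac e) p.1.1.castSucc / _)
    rw [map_mul, map_div, psi_lu, psi_lu, psi_cst]
    congr 2
    show _ = Pool.Agent.TH826.GA.ku (kap (cc b) (Tp p) 0)
    rw [kap_Tp0 hb]
    rfl
  · show Units.map _ (_ * (_ / _)) = _ * (au lam 1 (fun _ => 0) (cc b) (ac e) p.1.2.castSucc / _)
    rw [map_mul, map_div, psi_lu, psi_lu, psi_cst]
    congr 2
    show _ = Pool.Agent.TH826.GA.ku (kap (cc b) (Tp p) 1)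
    rw [kap_Tp1 hb]
    rfl

theorem vtx_eq {T : Fin (1 + 1) → Fin (m + 1)} (hT : (cm (cc b) T).det ≠ 0) :
    vtx (cc b) (ac e) T 0 = (e (T 1) - e (T 0)) / (b (T 1) - b (T 0)) ∧
    vtx (cc b) (ac e) T 1 = b (T 0) * ((e (T 1) - e (T 0)) / (b (T 1) - b (T 0))) - e (T 0) := by
  have hd : b (T 1) - b (T 0) ≠ 0 := by rwa [det_cc] at hT
  unfold vtx
  rw [Fin.sum_univ_two, Fin.sum_univ_two, Matrix.inv_def, Matrix.adjugate_fin_two, det_cc]
  unfold cm cc ac
  simp only [Matrix.smul_apply, Matrix.of_apply, Matrix.cons_val_zero, Matrix.cons_val_one,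
    Matrix.cons_val', smul_eq_mul, Ring.inverse_eq_inv']
  constructor
  · field_simp
    ring
  · field_simp
    ring

/-- the bijection of the index sets -/
theorem exists_equiv (hg : GeneralPosition b e) (hb : Function.Injective b) :
    ∃ E : Pairs m ≃ Ix (cc b) (ac e), ∀ p, (E p).1 = Tp p := by
  have hN : ∀ p : Pairs m, Nbc (cc b) (ac e) (Tp p) := by
    intro p
    have h01 : (Tp p) 0 ≠ (Tp p) 1 := fun h => p.2.ne (Fin.castSucc_injective _ h)
    refine ⟨?_, det_ne hb h01, fun l => ⟨Fin.last m, ?_, ?_⟩, fun k hk hv => ?_⟩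
    · intro x y hxy
      fin_cases x <;> fin_cases y
      · exact absurd hxy (lt_irrefl _)
      · exact Fin.castSucc_lt_castSucc_iff.2 p.2
      · exact absurd hxy (by decide)
      · exact absurd hxy (lt_irrefl _)
    · fin_cases l
      · exact Fin.castSucc_lt_last _
      · exact Fin.castSucc_lt_last _
    · have h := Pool.Agent.TH577.UA.hi_spec (det_ne hb h01) l
      rwa [hi_Tp hb] at h
    · exfalso
      have hT := det_ne hb h01
      obtain ⟨h0, h1⟩ := vtx_eq (e := e) hT
      rw [Fin.sum_univ_two, h0, h1] at hv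
      have hd : b ((Tp p) 1) - b ((Tp p) 0) ≠ 0 := sub_ne_zero.2 fun h => h01 (hb h).symm
      have h2 := hg ((Tp p) 0) ((Tp p) 1) k h01 (hk 0) (hk 1)
      apply h2
      unfold cc ac at hv
      simp only [Matrix.cons_val_zero, Matrix.cons_val_one] at hv
      field_simp at hv
      linear_combination -hv
  refine ⟨Equiv.ofBijective (fun p => ⟨Tp p, hN p⟩) ⟨fun p q hpq => ?_, fun T => ?_⟩,
    fun p => rfl⟩
  · have h1 := congrArg Subtype.val hpq
    have h2 : (Tp p) 0 = (Tp q) 0 := congrFun h1 0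
    have h3 : (Tp p) 1 = (Tp q) 1 := congrFun h1 1
    exact Subtype.ext (Prod.ext (Fin.castSucc_injective _ h2) (Fin.castSucc_injective _ h3))
  · obtain ⟨T, hT1, hT2, hT3, hT4⟩ := T
    have h01 : T 0 < T 1 := hT1 (by decide)
    obtain ⟨k, hk, -⟩ := hT3 1
    have h1l : T 1 ≠ Fin.last m := (hk.trans_le (Fin.le_last k)).ne
    have h0l : T 0 ≠ Fin.last m := (h01.trans (hk.trans_le (Fin.le_last k))).ne
    have h2 : (T 0).castPred h0l < (T 1).castPred h1l := Fin.castPred_lt_castPred_iff.2 h01
    refine ⟨⟨((T 0).castPred h0l, (T 1).castPred h1l), h2⟩, ?_⟩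
    · refine Subtype.ext ?_
      funext l
      fin_cases l
      · exact Fin.castSucc_castPred (T 0) h0l
      · exact Fin.castSucc_castPred (T 1) h1l

end Tp

section main

variable {b e : Fin (m + 1) → K}

theorem large (σ : K →+* ℂ) (hm : 1 ≤ m) (hb : Function.Injective b) (hg : GeneralPosition b e) :
    ∃ B : ℝ, ∀ lam : K, B ≤ ‖σ lam‖ →
      SmoothProjective σ lam b e ∧ IndependentRegulators σ lam b e := by
  obtain ⟨c1, hc1, h⟩ := Pool.Agent.TH577.UA.exists_tori (g := 1) (w := fun _ => 0) σ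
    (distinct hb e) (fun T _ => by rw [map_one]; exact one_ne_zero)
  obtain ⟨c2, h2⟩ := Pool.Agent.TH577.UA.exists_smooth (a := ac e) σ (exists_det hm hb) fun _ => 0
  obtain ⟨E, hE⟩ := exists_equiv hg hb
  refine ⟨max c1 c2, fun lam hlam => ?_⟩
  have hl1 : c1 ≤ ‖σ lam‖ := (le_max_left _ _).trans hlam
  have hl0 : lam ≠ 0 := by
    intro h0
    rw [h0, map_zero, norm_zero] at hl1
    linarith
  refine ⟨smoothProjective hl0 hb fun x hx => ?_, ?_⟩
  · have h3 := h2 lam ((le_max_right _ _).trans hlam) x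
    rw [aeqn_eq] at h3
    exact h3 hx
  · obtain ⟨Γ, hΓ, hdet⟩ := h lam hl1
    refine ⟨fun t => pull (psi lam b e) (Γ (E t)), fun t θ x => ?_, ?_⟩
    · show (Γ (E t)).e θ (psi lam b e (pol lam b e (MvPolynomial.C x))) = σ x
      rw [psi_pol]
      exact hΓ _ _ _
    · have h4 : (Matrix.of fun t p : Pairs m => (pull (psi lam b e) (Γ (E t))).reg
          (symb (tri lam b e p.1.1.castSucc p.1.2.castSucc (Fin.last m)))) =
          (Matrix.of fun T T' : Ix (cc b) (ac e) =>
            (Γ T).reg (symb (aent lam 1 (fun _ => 0) (cc b) (ac e) T'.1))).submatrix E E := by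
        ext t p
        rw [Matrix.of_apply, Matrix.submatrix_apply, Matrix.of_apply, pull_symb]
        congr 2
        funext l
        rw [psi_tri hb, hE]
      rw [h4, Matrix.det_submatrix_equiv_self]
      exact hdet

end main

end Pool.Agent.V5helper77.TL
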