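import Pool.Agent.V5helper77.TL.Kq
import Pool.Agent.TH826.MK.Variety
set_option autoImplicit false

/-!
# The curves `λ ∏_i (y - b_i x + e_i) = 1` and the symbols on them
-/

namespace Pool.Agent.V5helper77.TL

open scoped WithZero

open Pool.Agent.TH826.MK (KQ symb unitPart Unramified)

section Ring

variable {K : Type*} [Field K] {m : ℕ}

/-- The polynomial `y - c x + d` in the variables `x = X 0`, `y = X 1`. -/
noncomputable def line (c d : K) : MvPolynomial (Fin 2) K :=
  MvPolynomial.X 1 - MvPolynomial.C c * MvPolynomial.X 0 + MvPolynomial.C d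

/-- The polynomial `λ ∏_i (y - b_i x + e_i) - 1`, `0 ≤ i ≤ m`. -/
noncomputable def eqn (lam : K) (b e : Fin (m + 1) → K) : MvPolynomial (Fin 2) K :=
  MvPolynomial.C lam * ∏ i, line (b i) (e i) - 1

/-- The coordinate ring of the affine curve `λ ∏_i (y - b_i x + e_i) = 1`. -/
def LRing (lam : K) (b e : Fin (m + 1) → K) : Type _ :=
  MvPolynomial (Fin 2) K ⧸ Ideal.span {eqn lam b e}

variable (lam : K) (b e : Fin (m + 1) → K)

noncomputable instance : CommRing (LRing lam b e) :=
  Ideal.Quotient.commRing (Ideal.span {eqn lam b e})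

/-- The polynomials in `x`, `y` as functions on the curve. -/
noncomputable def pol : MvPolynomial (Fin 2) K →+* LRing lam b e :=
  Ideal.Quotient.mk (Ideal.span {eqn lam b e})

/-- The constants as functions on the curve. -/
noncomputable def cst : K →+* LRing lam b e := (pol lam b e).comp MvPolynomial.C

theorem pol_eqn : pol lam b e (eqn lam b e) = 0 :=
  Ideal.Quotient.eq_zero_iff_mem.2 (Ideal.subset_span rfl)

theorem prod_line : cst lam b e lam * ∏ i, pol lam b e (line (b i) (e i)) = 1 := by
  have h := pol_eqn lam b e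
  unfold eqn at h
  rw [map_sub, map_mul, map_one, map_prod, sub_eq_zero] at h
  exact h

theorem isUnit_line (i : Fin (m + 1)) : IsUnit (pol lam b e (line (b i) (e i))) := by
  refine isUnit_of_dvd_one ?_
  rw [← prod_line lam b e]
  exact Dvd.dvd.mul_left (Finset.dvd_prod_of_mem (fun i => pol lam b e (line (b i) (e i)))
    (Finset.mem_univ i)) _

/-- The unit `L_i = y - b_i x + e_i` of the coordinate ring. -/
noncomputable def lu (i : Fin (m + 1)) : (LRing lam b e)ˣ := (isUnit_line lam b e i).unit

theorem coe_lu (i : Fin (m + 1)) : (lu lam b e i : LRing lam b e) = pol lam b e (line (b i) (e i)) := rfl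

/-- The number `c` as a unit of the field (and `1` for `c = 0`). -/
noncomputable def ku (c : K) : Kˣ :=
  open Classical in if h : c = 0 then 1 else Units.mk0 c h

theorem coe_ku {c : K} (h : c ≠ 0) : (ku c : K) = c := by
  unfold ku
  rw [dif_neg h, Units.val_mk0]

/-- The entries `(b_j - b_k) / (b_j - b_i) · L_i / L_k` and `(b_k - b_i) / (b_j - b_i) · L_j / L_k` of the
symbol of the three lines `i`, `j`, `k`. -/
noncomputable def tri (i j k : Fin (m + 1)) : Fin 2 → (LRing lam b e)ˣ :=
  ![Units.map (cst lam b e : K →* LRing lam b e) (ku ((b j - b k) / (b j - b i))) *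
      (lu lam b e i / lu lam b e k),
    Units.map (cst lam b e : K →* LRing lam b e) (ku ((b k - b i) / (b j - b i))) *
      (lu lam b e j / lu lam b e k)]

end Ring

section unr

variable {L : Type*} [Field L] {m : ℕ} (v : Valuation L ℤᵐ⁰)

/-- the case analysis -/
theorem unr_main {s p : L} {β ε : Fin (m + 1) → L} {η : Fin (m + 1) → Fin (m + 1) → L}
    {a : Fin (m + 1) → Lˣ} {l : L}
    (ha : ∀ i, (a i : L) = p - β i * s + ε i) (hβ : ∀ i, v (β i) ≤ 1) (hε : ∀ i, v (ε i) ≤ 1)
    (hη : ∀ x y, v (η x y) ≤ 1) (hεη : ∀ x y, ε y - ε x = η x y * (β y - β x)) (hl : v l ≤ 1)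
    (hprod : l * ∏ i, (a i : L) = 1) :
    ∃ z : Lˣ, ∀ x y (c : Lˣ), (c : L) = β y - β x →
      symb ![a x / (z * c), -(a y / (z * c))] ∈ unitPart v 2 := by
  have hdiv : ∀ x y : Lˣ, ((x / y : Lˣ) : L) = (x : L) / (y : L) := fun x y =>
    Units.val_div_eq_div_val _ _
  have hsum : ∀ (z : Lˣ) x y (c : Lˣ), (c : L) = β y - β x →
      ((a x / (z * c) : Lˣ) : L) + ((-(a y / (z * c)) : Lˣ) : L) = (s - η x y) / z := by
    intro z x y c hc
    rw [Units.val_neg, hdiv, hdiv, Units.val_mul, ha, ha]
    have hz := z.ne_zero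
    have hc0 := c.ne_zero
    have h1 := hεη x y
    rw [← hc] at h1
    field_simp
    rw [hc] at h1 ⊢
    linear_combination -h1
  have hcle : ∀ x y (c : Lˣ), (c : L) = β y - β x → v (c : L) ≤ 1 := fun x y c hc => by
    rw [hc]
    exact (v.map_sub _ _).trans (max_le (hβ y) (hβ x))
  have hc0 : ∀ c : Lˣ, 0 < v (c : L) := fun c =>
    zero_lt_iff.2 ((Valuation.ne_zero_iff v).2 c.ne_zero)
  have hsβ : ∀ x y, v (s - η x y) ≤ max (v s) 1 := fun x y =>
    (v.map_sub _ _).trans (max_le (le_max_left _ _) ((hη x y).trans (le_max_right _ _)))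
  -- the case of a large `p`
  have hlarge : 1 < v p → v s < v p → ∃ z : Lˣ, ∀ x y (c : Lˣ), (c : L) = β y - β x →
      symb ![a x / (z * c), -(a y / (z * c))] ∈ unitPart v 2 := by
    intro hp hsp
    have hae : ∀ i, v (a i : L) = v p := by
      intro i
      have e1 : (a i : L) = p - (β i * s - ε i) := by rw [ha]; ring
      rw [e1]
      refine Valuation.map_sub_eq_of_lt_left v ?_
      refine (v.map_sub _ _).trans_lt (max_lt ?_ ((hε i).trans_lt hp))
      rw [map_mul]
      exact (mul_le_mul' (hβ i) le_rfl).trans_lt (by rwa [one_mul])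
    refine ⟨1, fun x y c hc => unr_neg v ?_⟩
    rw [hsum 1 x y c hc, Units.val_one, div_one, Units.val_neg, Valuation.map_neg, one_mul, hdiv,
      map_div₀, hae, lt_div_iff₀ (hc0 c)]
    calc v (s - η x y) * v (c : L) ≤ max (v s) 1 * 1 := mul_le_mul' (hsβ x y) (hcle x y c hc)
      _ = max (v s) 1 := mul_one _
      _ < v p := max_lt hsp hp
  by_cases h1 : v s ≤ 1
  · by_cases h2 : v p ≤ 1
    · have hle : ∀ i, v (a i : L) ≤ 1 := by
        intro i
        rw [ha]
        refine (v.map_add _ _).trans (max_le ((v.map_sub _ _).trans (max_le h2 ?_)) (hε i))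
        rw [map_mul]
        exact mul_le_one' (hβ i) h1
      have hone : ∀ i, v (a i : L) = 1 := by
        have hv := congrArg v hprod
        rw [map_mul, map_prod, map_one] at hv
        have hP : ∏ i, v (a i : L) ≤ 1 := Finset.prod_le_one' fun i _ => hle i
        have hP1 : ∏ i, v (a i : L) = 1 := by
          refine le_antisymm hP ?_
          calc (1 : ℤᵐ⁰) = v l * ∏ i, v (a i : L) := hv.symm
            _ ≤ 1 * ∏ i, v (a i : L) := mul_le_mul' hl le_rfl
            _ = ∏ i, v (a i : L) := one_mul _
        intro i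
        exact (Finset.prod_eq_one_iff_of_le_one' fun i _ => hle i).1 hP1 i (Finset.mem_univ i)
      refine ⟨1, fun x y c hc => ?_⟩
      rcases lt_or_eq_of_le (hcle x y c hc) with hlt | heq
      · refine unr_neg v ?_
        rw [hsum 1 x y c hc, Units.val_one, div_one, Units.val_neg, Valuation.map_neg, one_mul,
          hdiv, map_div₀, hone, lt_div_iff₀ (hc0 c)]
        calc v (s - η x y) * v (c : L) ≤ 1 * v (c : L) :=
              mul_le_mul' ((hsβ x y).trans (max_le h1 le_rfl)) le_rfl
          _ = v (c : L) := one_mul _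
          _ < 1 := hlt
      · refine unr_unit v ?_ ?_
        · rw [one_mul, hdiv, map_div₀, hone, heq, div_one]
        · rw [Units.val_neg, Valuation.map_neg, one_mul, hdiv, map_div₀, hone, heq, div_one]
    · rw [not_le] at h2
      exact hlarge h2 (h1.trans_lt h2)
  · rw [not_le] at h1
    by_cases h2 : v p ≤ v s
    · have hs0 : s ≠ 0 := by
        rintro rfl
        rw [map_zero] at h1
        exact not_lt_of_ge zero_le_one h1
      refine ⟨Units.mk0 s hs0, fun x y c hc => unr_one v ?_⟩
      rw [hsum _ x y c hc, Units.val_mk0]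
      have e1 : (s - η x y) / s - 1 = -(η x y / s) := by
        field_simp
        ring
      rw [e1, Valuation.map_neg, map_div₀]
      exact (div_lt_one₀ (zero_lt_one.trans h1)).2 (lt_of_le_of_lt (hη x y) h1)
    · rw [not_le] at h2
      exact hlarge (h1.trans h2) h2

end unr

section unram

variable {K : Type*} [Field K] {m : ℕ} {lam : K} {b e : Fin (m + 1) → K}

/-- The `b_i` and `e_i` are algebraic integers, and the `x`-coordinates `(e_j - e_i) / (b_j - b_i)` of the
intersection points of the lines `y = b_i x - e_i` are algebraic integers, too. -/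
def IntegralPoints (b e : Fin (m + 1) → K) : Prop :=
  (∀ i, IsIntegral ℤ (b i)) ∧ (∀ i, IsIntegral ℤ (e i)) ∧
    ∀ i j, i ≠ j → IsIntegral ℤ ((e j - e i) / (b j - b i))

/-- The symbols of three lines are unramified. -/
theorem tri_mem_unramified (hlam : IsIntegral ℤ lam) (hb : IntegralPoints b e)
    (hinj : Function.Injective b) {i j k : Fin (m + 1)} (hij : i ≠ j) (hik : i ≠ k) (hjk : j ≠ k)
    {L : Type*} [Field L] (f : LRing lam b e →+* L) :
    KQ.map 2 f (symb (tri lam b e i j k)) ∈ Unramified L 2 := by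
  unfold Unramified
  simp only [Submodule.mem_iInf]
  intro v _
  obtain ⟨hb, he, hbe⟩ := hb
  set g : K →+* L := f.comp (cst lam b e) with hg
  set β : Fin (m + 1) → L := fun i => g (b i) with hβ
  set s : L := f (pol lam b e (MvPolynomial.X 0)) with hs
  set p : L := f (pol lam b e (MvPolynomial.X 1)) with hp
  set a : Fin (m + 1) → Lˣ := fun i => Units.map (f : LRing lam b e →* L) (lu lam b e i) with ha
  have hav : ∀ i, (a i : L) = p - β i * s + g (e i) := by
    intro i
    show f (pol lam b e (line (b i) (e i))) = _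
    unfold line
    rw [map_add, map_sub, map_mul, map_add, map_sub, map_mul]
    rfl
  have hci : ∀ x : K, IsIntegral ℤ x → v (g x) ≤ 1 := fun x hx =>
    Pool.Agent.TH826.MK.val_le_one_of_integral v (map_isIntegral_int _ hx)
  have hprod : g lam * ∏ i, (a i : L) = 1 := by
    have h := congrArg f (prod_line lam b e)
    rw [map_mul, map_prod, map_one] at h
    exact h
  have hne : ∀ {x y : Fin (m + 1)}, x ≠ y → β y - β x ≠ 0 := fun {x y} hxy =>
    sub_ne_zero.2 fun h => hxy (hinj (g.injective h)).symm
  have hneK : ∀ {x y : Fin (m + 1)}, x ≠ y → b y - b x ≠ 0 := fun {x y} hxy =>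
    sub_ne_zero.2 fun h => hxy (hinj h).symm
  obtain ⟨z, hz⟩ := unr_main v (ε := fun i => g (e i))
    (η := fun x y => g ((e y - e x) / (b y - b x))) hav (fun i => hci _ (hb i))
    (fun i => hci _ (he i)) (fun x y => by
      by_cases hxy : x = y
      · subst hxy
        rw [sub_self, zero_div, map_zero, map_zero]
        exact zero_le_one
      · exact hci _ (hbe x y hxy)) (fun x y => by
      by_cases hxy : x = y
      · subst hxy
        simp
      · simp only [hβ]
        rw [← map_sub, ← map_sub, ← map_mul, div_mul_cancel₀ _ (hneK hxy)]) (hci _ hlam) hprod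
  set c1 : Lˣ := Units.mk0 _ (hne hij) with hc1
  set c2 : Lˣ := Units.mk0 _ (hne hjk) with hc2
  set c3 : Lˣ := Units.mk0 _ (hne (Ne.symm hik)) with hc3
  set κ : Lˣ := Units.map (g : K →* L) (ku ((b j - b k) / (b j - b i))) with hκ
  set κ' : Lˣ := Units.map (g : K →* L) (ku ((b k - b i) / (b j - b i))) with hκ'
  have hκv : (κ : L) = (β j - β k) / (β j - β i) := by
    show g (ku ((b j - b k) / (b j - b i)) : K) = _
    rw [coe_ku (div_ne_zero (hneK (Ne.symm hjk)) (hneK hij)), map_div₀, map_sub, map_sub]
  have hκ'v : (κ' : L) = (β k - β i) / (β j - β i) := by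
    show g (ku ((b k - b i) / (b j - b i)) : K) = _
    rw [coe_ku (div_ne_zero (hneK hik) (hneK hij)), map_div₀, map_sub, map_sub]
  have e1 : (KQ.map 2 f (symb (tri lam b e i j k))) =
      symb ![κ * (a i / a k), κ' * (a j / a k)] := by
    rw [KQ.map_symb]
    congr 1
    funext l
    fin_cases l
    · show Units.map (f : LRing lam b e →* L) (_ * (_ / _)) = _
      rw [map_mul, map_div]
      rfl
    · show Units.map (f : LRing lam b e →* L) (_ * (_ / _)) = _
      rw [map_mul, map_div]
      rfl
  have hd := hne hij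
  rw [e1, three z (c1 := c1) (c2 := c2) (c3 := c3) (by rw [hκv, hκ'v]; field_simp; ring)
    (Units.ext (by
      rw [hκv, Units.val_neg, Units.val_div_eq_div_val, hc1, hc2, Units.val_mk0, Units.val_mk0]
      ring))
    (Units.ext (by
      rw [hκ'v, Units.val_neg, Units.val_div_eq_div_val, hc1, hc3, Units.val_mk0, Units.val_mk0]
      ring))]
  exact Submodule.add_mem _ (Submodule.add_mem _ (hz i j c1 rfl) (hz j k c2 rfl)) (hz k i c3 rfl)

end unram

end Pool.Agent.V5helper77.TL
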